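import Pool.Agent.Helper36.RN.Goals
import Pool.Agent.Helper14.RS.Abs

/-! # Project RFn (MP_c98eff_gt), existence part, packet QAS: assembly of the local existence theorem for mixed systems -/

namespace Pool.Agent.Helper40.RN

open Set Filter Topology MeasureTheory Pool.Agent.Helper47.RFn Pool.Agent.Helper36.EV
  Pool.Agent.Helper36.RN Pool.Agent.Helper14.RS
open scoped ContDiff

variable {n : ℕ} {I J : Type} [Fintype I] [Fintype J]

theorem qq_nonneg (m : ℕ) (y : I ⊕ J → XS n) : 0 ≤ qq m y :=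
  Finset.sum_nonneg fun _ _ => sn_nonneg _ _

theorem qq_mono {m k : ℕ} (h : m ≤ k) (y : I ⊕ J → XS n) : qq m y ≤ qq k y :=
  Finset.sum_le_sum fun _ _ => sn_mono h _

theorem sn_le_qq (m : ℕ) (y : I ⊕ J → XS n) (i : I ⊕ J) : sn m (y i) ≤ qq m y :=
  Finset.single_le_sum (f := fun i => sn m (y i)) (fun _ _ => sn_nonneg _ _)
    (Finset.mem_univ i)

theorem sn_sum_le {ι : Type} (m : ℕ) (s : Finset ι) (f : ι → XS n) (K : ℝ) (hK : 0 ≤ K)
    (h : ∀ i, sn m (f i) ≤ K) : sn m (∑ i ∈ s, f i) ≤ 4 ^ s.card * K := by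
  classical
  induction s using Finset.induction_on with
  | empty => simpa [sn] using hK
  | insert a s ha ih =>
    rw [Finset.sum_insert ha, Finset.card_insert_of_notMem ha]
    have h1 := sn_add_le m (f a) (∑ i ∈ s, f i)
    have h2 := h a
    have h3 : (1 : ℝ) ≤ 4 ^ s.card := one_le_pow₀ (by norm_num)
    rw [pow_succ]
    nlinarith

/-- uniform bound of finitely many numbers -/
theorem unif {ι : Type} [Fintype ι] (C : ι → ℝ) : ∃ K, 0 ≤ K ∧ ∀ i, C i ≤ K :=
  ⟨∑ i, |C i|, Finset.sum_nonneg fun _ _ => abs_nonneg _, fun i => (le_abs_self _).trans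
    (Finset.single_le_sum (f := fun i => |C i|) (fun _ _ => abs_nonneg _) (Finset.mem_univ i))⟩

/-- the flux as a polynomial in the jet -/
noncomputable def flux (D : QLD n I J) (p : KK n) (j : J) :
    MvPolynomial ((I ⊕ J) ⊕ (KK n × J)) ℝ :=
  (∑ q, MvPolynomial.rename (fun i => Sum.inl (Sum.inl i)) (D.α p q) *
    MvPolynomial.X (Sum.inr (q, j))) + MvPolynomial.rename Sum.inl (D.β p j)

omit [Fintype I] [Fintype J] in
theorem flux_eq (D : QLD n I J) (p : KK n) (j : J) (u : I → XS n) (v : J → XS n) :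
    MvPolynomial.aeval (zj u v) (flux D p j) =
      (∑ q, MvPolynomial.aeval u (D.α p q) * Ld q (v j)) +
        MvPolynomial.aeval (Sum.elim u v) (D.β p j) := by
  unfold flux
  rw [map_add, map_sum]
  congr 1
  · refine Finset.sum_congr rfl fun q _ => ?_
    rw [map_mul, MvPolynomial.aeval_rename, MvPolynomial.aeval_X]
    rfl
  · rw [MvPolynomial.aeval_rename]
    rfl

theorem FI_bd (hM : R_MVP) (D : QLD n I J) (L : ℝ) :
    ∃ C, 0 ≤ C ∧ ∀ y : I ⊕ J → XS n, qq (2 * n + 7) y ≤ L →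
      ∀ i, sn (n + 1) (D.FI (fun i => y (Sum.inl i)) (fun j => y (Sum.inr j)) i) ≤ C := by
  have h0 : ∀ i, ∃ C, ∀ z : (I ⊕ J) ⊕ (KK n × J) → XS n, (∀ i, sn (2 * n + 6) (z i) ≤ L) →
      sn (2 * n + 6) (MvPolynomial.aeval z (D.G i)) ≤ C :=
    fun i => (hM n _ (D.G i)).2.2 (2 * n + 6) (by omega) L
  choose C0 hC1 using h0
  obtain ⟨K, hK0, hK⟩ := unif C0
  refine ⟨K, hK0, fun y hy i => ?_⟩
  refine (sn_mono (by omega : n + 1 ≤ 2 * n + 6) _).trans ((hC1 i _ ?_).trans (hK i))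
  rintro ((i | j) | p)
  · exact (sn_mono (by omega) _).trans ((sn_le_qq (2 * n + 7) y (Sum.inl i)).trans hy)
  · exact (sn_mono (by omega) _).trans ((sn_le_qq (2 * n + 7) y (Sum.inr j)).trans hy)
  · exact (sn_Ld _ _ _).trans ((sn_le_qq (2 * n + 7) y (Sum.inr p.2)).trans hy)

theorem FJ_bd (hM : R_MVP) (D : QLD n I J) (L : ℝ) :
    ∃ C, 0 ≤ C ∧ ∀ y : I ⊕ J → XS n, qq (2 * n + 7) y ≤ L →
      ∀ j, sn (n + 1) (D.FJ (fun i => y (Sum.inl i)) (fun j => y (Sum.inr j)) j) ≤ C := by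
  have ha : ∀ q : KK n × J, ∃ C, ∀ z : (I ⊕ J) ⊕ (KK n × J) → XS n,
      (∀ i, sn (2 * n + 6) (z i) ≤ L) →
      sn (2 * n + 6) (MvPolynomial.aeval z (flux D q.1 q.2)) ≤ C :=
    fun q => (hM n _ (flux D q.1 q.2)).2.2 (2 * n + 6) (by omega) L
  have hw : ∀ j : J, ∃ C, ∀ z : ((I ⊕ J) ⊕ (KK n × J)) ⊕ (KK n × I) → XS n,
      (∀ i, sn (2 * n + 6) (z i) ≤ L) → sn (2 * n + 6) (MvPolynomial.aeval z (D.W j)) ≤ C :=
    fun j => (hM n _ (D.W j)).2.2 (2 * n + 6) (by omega) L
  choose A0 hA using ha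
  choose W0 hW using hw
  obtain ⟨KA, hKA0, hKA⟩ := unif A0
  obtain ⟨KW, hKW0, hKW⟩ := unif W0
  refine ⟨2 * (4 ^ (Finset.univ : Finset (KK n)).card * KA + KW), by positivity,
    fun y hy j => ?_⟩
  set u : I → XS n := fun i => y (Sum.inl i) with hu
  set v : J → XS n := fun j => y (Sum.inr j) with hv
  have hui : ∀ i, sn (2 * n + 7) (u i) ≤ L := fun i =>
    (sn_le_qq (2 * n + 7) y (Sum.inl i)).trans hy
  have hvj : ∀ j, sn (2 * n + 7) (v j) ≤ L := fun j =>
    (sn_le_qq (2 * n + 7) y (Sum.inr j)).trans hy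
  have hz : ∀ q, sn (2 * n + 6) (zj u v q) ≤ L := by
    rintro ((i | j) | p)
    · exact (sn_mono (by omega) _).trans (hui i)
    · exact (sn_mono (by omega) _).trans (hvj j)
    · exact (sn_Ld _ _ _).trans (hvj p.2)
  have hz' : ∀ q, sn (2 * n + 6) (zj' u v q) ≤ L := by
    rintro (q | p)
    · exact hz q
    · exact (sn_Ld _ _ _).trans (hui p.2)
  have h1 : ∀ p, sn (n + 1) (Ld p ((∑ q, MvPolynomial.aeval u (D.α p q) * Ld q (v j)) +
      MvPolynomial.aeval (Sum.elim u v) (D.β p j))) ≤ KA := by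
    intro p
    rw [← flux_eq]
    exact (sn_Ld _ _ _).trans ((sn_mono (by omega) _).trans
      ((hA (p, j) (zj u v) hz).trans (hKA (p, j))))
  have h3 := sn_sum_le (n + 1) Finset.univ
    (fun p => Ld p ((∑ q, MvPolynomial.aeval u (D.α p q) * Ld q (v j)) +
      MvPolynomial.aeval (Sum.elim u v) (D.β p j))) KA hKA0 h1
  have h4 : sn (n + 1) (MvPolynomial.aeval (zj' u v) (D.W j)) ≤ KW :=
    (sn_mono (by omega : n + 1 ≤ 2 * n + 6) _).trans ((hW j (zj' u v) hz').trans (hKW j))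
  unfold QLD.FJ
  refine (sn_add_le _ _ _).trans ?_
  linarith

theorem FF_bd (hM : R_MVP) (D : QLD n I J) (L : ℝ) :
    ∃ C, ∀ y : I ⊕ J → XS n, qq (2 * n + 7) y ≤ L → qq (n + 1) (D.FF y) ≤ C := by
  obtain ⟨C1, hC10, hC1⟩ := FI_bd hM D L
  obtain ⟨C2, hC20, hC2⟩ := FJ_bd hM D L
  refine ⟨∑ _i : I, C1 + ∑ _j : J, C2, fun y hy => ?_⟩
  unfold qq
  rw [Fintype.sum_sum_type]
  exact add_le_add (Finset.sum_le_sum fun i _ => hC1 y hy i)
    (Finset.sum_le_sum fun j _ => hC2 y hy j)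

theorem qas : G_QAS := by
  intro hmain hS hM hsc hF3 hF4 hF1 n hn I J _ _ D u0 v0 lam ρ hlam hρ hell
  obtain ⟨S, hSB⟩ := hsc n hn (I ⊕ J)
  have hq : ∀ m y, S.q m y = qq m y := fun m y => hSB m y y
  have hB : ∀ m y z, S.B m y z = bb m y z := fun m y z => hSB m y z
  set y0 : I ⊕ J → XS n := Sum.elim u0 v0 with hy0
  set R : ℝ := 2 * (1 + qq (2 * n + 7) y0) with hR
  obtain ⟨Cs, hCs⟩ := hS n
  set r : ℝ := ρ ^ 2 / (|Cs| + 1) with hr
  have hrpos : 0 < r := by positivity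
  have hclose : ∀ y : I ⊕ J → XS n, S.q (n + 1) (y - y0) ≤ r →
      ∀ i x, |(y (Sum.inl i)).1 x - (u0 i).1 x| ≤ ρ := by
    intro y hy i x
    rw [hq] at hy
    have h1 := hCs (y (Sum.inl i) - u0 i) x
    have h2 : sn (n + 1) (y (Sum.inl i) - u0 i) ≤ r := by
      have h3 := (sn_le_qq (n + 1) (y - y0) (Sum.inl i)).trans hy
      have h4 : (y - y0) (Sum.inl i) = y (Sum.inl i) - u0 i := rfl
      rw [h4] at h3
      exact h3
    have h3 : ((y (Sum.inl i)).1 x - (u0 i).1 x) ^ 2 ≤ ρ ^ 2 := by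
      have h4 : (y (Sum.inl i) - u0 i).1 x = (y (Sum.inl i)).1 x - (u0 i).1 x := rfl
      rw [← h4]
      refine h1.trans ?_
      calc Cs * sn (n + 1) (y (Sum.inl i) - u0 i) ≤ |Cs| * sn (n + 1) (y (Sum.inl i) - u0 i) :=
            mul_le_mul_of_nonneg_right (le_abs_self Cs) (sn_nonneg _ _)
        _ ≤ |Cs| * r := mul_le_mul_of_nonneg_left h2 (abs_nonneg _)
        _ ≤ ρ ^ 2 := by
          rw [hr, mul_div_assoc', div_le_iff₀ (by positivity)]
          nlinarith [abs_nonneg Cs, sq_nonneg ρ]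
    exact abs_le_of_sq_le_sq h3 hρ.le
  obtain ⟨C1, hC10, hC1⟩ := hF3 n I J D u0 lam ρ hlam hell (2 * n + 7) le_rfl R
  obtain ⟨C2, hC2⟩ := FF_bd hM D R
  have hq0 := qq_nonneg (2 * n + 7) y0
  obtain ⟨τ, hτ, hsm, hsm'⟩ : ∃ τ : ℝ, 0 < τ ∧
      Real.exp (2 * C1 * τ) * (1 + qq (2 * n + 7) y0) < 1 + R ∧ C2 * τ ^ 2 < r := by
    have h1 : ∀ᶠ τ : ℝ in 𝓝 0, Real.exp (2 * C1 * τ) * (1 + qq (2 * n + 7) y0) < 1 + R := by
      have h2 : ContinuousAt (fun τ : ℝ => Real.exp (2 * C1 * τ) * (1 + qq (2 * n + 7) y0)) 0 := by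
        fun_prop
      refine h2.eventually_lt_const ?_
      simp only [mul_zero, Real.exp_zero, one_mul]
      linarith
    have h2 : ∀ᶠ τ : ℝ in 𝓝 0, C2 * τ ^ 2 < r := by
      have h2 : ContinuousAt (fun τ : ℝ => C2 * τ ^ 2) 0 := by fun_prop
      refine h2.eventually_lt_const ?_
      simpa using hrpos
    have h3 : ∀ᶠ τ : ℝ in 𝓝[>] 0, 0 < τ ∧
        Real.exp (2 * C1 * τ) * (1 + qq (2 * n + 7) y0) < 1 + R ∧ C2 * τ ^ 2 < r := by
      filter_upwards [self_mem_nhdsWithin, nhdsWithin_le_nhds h1, nhdsWithin_le_nhds h2]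
        with τ a b c
      exact ⟨a, b, c⟩
    exact h3.exists
  let E : Evo S :=
    { F := fun _ => D.FF
      T := τ
      τ := τ
      u0 := y0
      s := 2 * n + 7
      m0 := n + 1
      m4 := 2 * n + 6
      R := R
      r := r
      C1 := C1
      C2 := C2
      hτ := hτ
      hτT := le_rfl
      hC1 := hC10
      hr := hrpos
      F0 := by
        intro t x t' x' _ _ _ hx m
        obtain ⟨C, hC⟩ := hF1 n I J D m (2 * (1 + qq (m + 2 * n + 4) x'))
        have h1 : ∀ᶠ N in atTop, qq (m + 2 * n + 4) (x N) ≤ 2 * (1 + qq (m + 2 * n + 4) x') := by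
          have h2 := (hx (m + 2 * n + 4)).eventually_le_const (zero_lt_one)
          filter_upwards [h2] with N hN
          have h3 := q_add_le S (m + 2 * n + 4) (x N - x') x'
          rw [sub_add_cancel, hq (m + 2 * n + 4) (x N), hq (m + 2 * n + 4) x'] at h3
          linarith
        have h2 : qq (m + 2 * n + 4) x' ≤ 2 * (1 + qq (m + 2 * n + 4) x') := by
          have := qq_nonneg (m + 2 * n + 4) x'
          linarith
        have h3 : Tendsto (fun N => C * S.q (m + 2) (x N - x')) atTop (𝓝 0) := by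
          have := (hx (m + 2)).const_mul C
          rwa [mul_zero] at this
        refine squeeze_zero' (Eventually.of_forall fun N => S.q_nonneg _ _) ?_ h3
        filter_upwards [h1] with N hN
        rw [hq, hq]
        exact hC (x N) x' hN h2
      F1 := by
        intro m
        refine ⟨m + 2 * n + 4, fun L => ?_⟩
        obtain ⟨C, hC⟩ := hF1 n I J D m |L|
        refine ⟨2 * (|C| * |L| + qq m (D.FF 0)), fun t _ x hx => ?_⟩
        have h1 : qq (m + 2 * n + 4) x ≤ |L| := by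
          rw [← hq]
          exact hx.trans (le_abs_self L)
        have h2 : qq (m + 2 * n + 4) (0 : I ⊕ J → XS n) ≤ |L| := by
          rw [← hq, S.q_zero]
          exact abs_nonneg L
        have h3 := hC x 0 h1 h2
        rw [sub_zero] at h3
        have h4 := q_add_le S m (D.FF x - D.FF 0) (D.FF 0)
        rw [sub_add_cancel, hq m (D.FF x - D.FF 0), hq m (D.FF 0)] at h4
        have h5 : C * qq (m + 2) x ≤ |C| * |L| := by
          calc C * qq (m + 2) x ≤ |C| * qq (m + 2) x :=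
                mul_le_mul_of_nonneg_right (le_abs_self C) (qq_nonneg _ _)
            _ ≤ |C| * |L| := mul_le_mul_of_nonneg_left
                ((qq_mono (by omega) x).trans h1) (abs_nonneg C)
        linarith
      F2 := by
        refine ⟨0 + 2 * n + 4, fun L => ?_⟩
        obtain ⟨C, hC⟩ := hF1 n I J D 0 L
        refine ⟨|C|, fun t _ x y hx hy => ?_⟩
        rw [hq] at hx hy
        rw [hq, hq]
        refine (hC x y hx hy).trans ?_
        calc C * qq (0 + 2) (x - y) ≤ |C| * qq (0 + 2) (x - y) :=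
              mul_le_mul_of_nonneg_right (le_abs_self C) (qq_nonneg _ _)
          _ ≤ |C| * qq (0 + 2 * n + 4) (x - y) := mul_le_mul_of_nonneg_left
              (qq_mono (by omega) _) (abs_nonneg C)
      F3s := by
        intro t _ x hx hxr
        rw [hB, hq]
        rw [hq] at hx
        exact hC1 x (hclose x hxr) ((qq_mono (by omega) x).trans hx)
      F3 := by
        intro m hm L
        obtain ⟨C, hC0, hC⟩ := hF3 n I J D u0 lam ρ hlam hell m hm.le L
        refine ⟨C, fun t _ x hx hxr hxL => ?_⟩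
        rw [hB, hq]
        rw [hq] at hxL
        exact hC x (hclose x hxr) hxL
      F4 := by
        intro L
        obtain ⟨C, hC⟩ := hF4 n I J D u0 lam ρ hlam hell L
        refine ⟨C, fun t _ x y hx hxr hy hyr hxL hyL => ?_⟩
        rw [hB, hq]
        rw [hq] at hxL hyL
        exact hC x y (hclose x hxr) (hclose y hyr) hxL hyL
      F5 := by
        intro t _ x hx _
        rw [hq] at hx ⊢
        exact hC2 x hx
      small := by
        rw [hq]
        exact hsm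
      small' := hsm' }
  obtain ⟨y, hy⟩ := hmain (I ⊕ J → XS n) (I ⊕ J → LL n) S E
  have hinit : y 0 = y0 := hy.init
  have hbd := hy.bdd
  have hder := hy.der
  have hFc := fun m t ht δ hδ => sol_F_cont E hy m (t := t) ht (δ := δ) hδ
  refine ⟨τ, hτ, fun t i => y t (Sum.inl i), fun t j => y t (Sum.inr j), ?_, ?_, ?_, ?_⟩
  · funext i
    change y 0 (Sum.inl i) = u0 i
    rw [hinit]
    rfl
  · funext j
    change y 0 (Sum.inr j) = v0 j
    rw [hinit]
    rfl
  · intro i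
    refine ⟨fun m => ?_, fun m t ht δ hδ => ?_, fun m t ht δ hδ => ?_⟩
    · obtain ⟨L, hL⟩ := hbd m
      refine ⟨L, fun t ht => ?_⟩
      have h1 := hL t ht
      rw [hq] at h1
      exact (sn_le_qq m (y t) (Sum.inl i)).trans h1
    · obtain ⟨η, hη, h⟩ := hFc m t ht δ hδ
      refine ⟨η, hη, fun s hs hst => ?_⟩
      have h1 := h s hs hst
      rw [hq] at h1
      exact (sn_le_qq m _ (Sum.inl i)).trans h1
    · obtain ⟨η, hη, h⟩ := hder m t ht δ hδ
      refine ⟨η, hη, fun s hs hst => ?_⟩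
      have h1 := h s hs hst
      rw [hq] at h1
      exact (sn_le_qq m _ (Sum.inl i)).trans h1
  · intro j
    refine ⟨fun m => ?_, fun m t ht δ hδ => ?_, fun m t ht δ hδ => ?_⟩
    · obtain ⟨L, hL⟩ := hbd m
      refine ⟨L, fun t ht => ?_⟩
      have h1 := hL t ht
      rw [hq] at h1
      exact (sn_le_qq m (y t) (Sum.inr j)).trans h1
    · obtain ⟨η, hη, h⟩ := hFc m t ht δ hδ
      refine ⟨η, hη, fun s hs hst => ?_⟩
      have h1 := h s hs hst
      rw [hq] at h1
      exact (sn_le_qq m _ (Sum.inr j)).trans h1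
    · obtain ⟨η, hη, h⟩ := hder m t ht δ hδ
      refine ⟨η, hη, fun s hs hst => ?_⟩
      have h1 := h s hs hst
      rw [hq] at h1
      exact (sn_le_qq m _ (Sum.inr j)).trans h1

end Pool.Agent.Helper40.RN
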